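import Pool.Agent.Helper11.PB.Goals
import Pool.Agent.Helper76.PB.NrmInd

/-!
# Project B (MP_fc6b1e_nt): the input about `NrmInd` for `χ₀ = 1`, and `MOMB1` for all `J`
-/

set_option autoImplicit false

namespace Pool.Agent.Helper11.PB

open NumberField Polynomial Module IsDedekindDomain
open Pool.Agent.Helper51.RP Pool.Agent.Helper42.RD Pool.Agent.Helper42.PP Pool.Agent.Helper42.PP1
open Pool.Agent.Helper51.SigLeo Pool.Agent.Helper11.LE Pool.Agent.Helper11.PP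
open Pool.Agent.Helper42.PB Pool.Agent.Helper76.PB

/-- **M_EXT1** (helper94): the existence of the `TauB` with `NrmInd` for `χ₀ = 1`. -/
def M_EXT1 : Prop :=
  ∀ (p : ℕ) [Fact p.Prime] (L : IwasawaLog p ℂ_[p]) (K K₁ J M₂ : Type) [Field K]
    [NumberField K] [Field K₁] [NumberField K₁] [Field J] [NumberField J] [Field M₂]
    [NumberField M₂] [Algebra K K₁] [Algebra K J] [Algebra K M₂] [Algebra K₁ M₂] [Algebra J M₂]
    (ε : K₁) (a₀ : M₂ˣ),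
    SitBs p K K K₁ K₁ J M₂ ε (1 : K ≃ₐ[K] K) (X - 1) a₀ → (¬ ∃ ξ : K, IsPrimitiveRoot ξ p) →
  ∀ (T : Set (K →+* ℂ_[p])) (B : Base p K K K₁ K₁ ε (1 : K ≃ₐ[K] K) (X - 1)) (_ : BaseB B a₀)
    (aτ : K₁ˣ), OmType p K ε (aτ : K₁) →
    (∀ Q : HeightOneSpectrum (𝓞 K₁), Q.valuation K₁ (p : K₁) < 1 → (p : ℤ) ∣ ordv Q (aτ : K₁)) →
  (finrank K J = 1 → ∃ E : TauB (B.S.card + T.ncard) B a₀ L T aτ, NrmInd E.toTauF M₂) ∧
  (1 < finrank K J → ∃ E : TauB (B.S.card + T.ncard - 1) B a₀ L T aτ, NrmInd E.toTauF M₂)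

/-- **MOMB1A** (`MOMB1` for all `J`). -/
def MOMB1A : Prop :=
  ∀ (p : ℕ) [Fact p.Prime] (L : IwasawaLog p ℂ_[p]) (K K₁ J M₂ : Type) [Field K]
    [NumberField K] [Field K₁] [NumberField K₁] [Field J] [NumberField J] [Field M₂]
    [NumberField M₂] [Algebra K K₁] [Algebra K J] [Algebra K M₂] [Algebra K₁ M₂] [Algebra J M₂]
    (ε : K₁) (a₀ : M₂ˣ),
    SitBs p K K K₁ K₁ J M₂ ε (1 : K ≃ₐ[K] K) (X - 1) a₀ → (¬ ∃ ξ : K, IsPrimitiveRoot ξ p) →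
  ∀ T : Set (K →+* ℂ_[p]), PlaceClosed T → Units.rank K + 1 ≤ T.ncard →
  MomC p K ε (BdB L T (X - 1 : (ZMod p)[X]) (1 : K ≃ₐ[K] K) a₀)
    ((p : ℝ) ^ (Units.rank K + 1) / (p ^ T.ncard * (p - 1)))

end Pool.Agent.Helper11.PB
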