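import Pool.Agent.Helper42.PB.Goals
import Pool.Agent.Helper11.PP0.Goals
import Pool.Agent.Helper11.PP.GoalsE
import Pool.Agent.Helper11.LE.Defs

/-!
# Project B (MP_fc6b1e_nt, density theorem for general base characters): the class form of the moment theorem

`SitB`, `BaseB`, `TauB`, `sysB` are those of `Helper42.PB`. `V_HYP` and `V_HYP0` are the interface with the analytic
part, `MOMB` and `MOMB1` the moment theorems for the classes, for `χ₀ ≠ 1` and for `χ₀ = 1`.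
-/

set_option autoImplicit false

namespace Pool.Agent.Helper11.PB

open NumberField Polynomial Module IsDedekindDomain
open Pool.Agent.Helper51.RP Pool.Agent.Helper42.RD Pool.Agent.Helper42.PP Pool.Agent.Helper42.PP1
open Pool.Agent.Helper51.SigLeo Pool.Agent.Helper11.LE Pool.Agent.Helper11.PP
open Pool.Agent.Helper17.PP (Sys)
open Pool.Agent.Helper17.PP0 (Hyp₀)
open Pool.Agent.Helper42.PB

/-- The classes whose twisted Selmer group (for the Kummer generator `a₀ a`, `a` of the class `c`) is not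
trivial. -/
def BdB {p : ℕ} [Fact p.Prime] {k : Type} [NormedField k] {K M K₁ M₂ : Type} [Field K]
    [Field M] [Field K₁] [Field M₂] [NumberField M₂] [Algebra K M] [Algebra M M₂] [Algebra K₁ M₂]
    (L : IwasawaLog p k) (T : Set (K →+* k)) (P : (ZMod p)[X]) (δ : M ≃ₐ[K] M) (a₀ : M₂ˣ) :
    Set (ClP p K₁) :=
  {c | ∃ (y : Mˣ) (a : K₁ˣ), clp p a = c ∧
    Sel L (above T) P δ ((a₀ : M₂) * algebraMap K₁ M₂ (a : K₁)) y ∧ ¬ Pw p y}

/-- The conclusion of the moment theorems for the set `Bd` of bad classes, with the constant `θ`. -/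
def MomC (p : ℕ) (K : Type) [Field K] [NumberField K] {K₁ : Type} [Field K₁] [NumberField K₁]
    [Algebra K K₁] (ε : K₁) (Bd : Set (ClP p K₁)) (θ : ℝ) : Prop :=
  (∀ X : ℝ, 0 < X → Summable fun c : ASet p K ε ↦ Real.exp (-(condC K c.1 : ℝ) / X)) ∧
  (∀ X : ℝ, {c | c ∈ ASet p K ε ∧ (condC K c : ℝ) ≤ X}.Finite) ∧
  (∃ C X₀ : ℝ, 0 < X₀ ∧ ∀ X : ℝ, X₀ ≤ X →
    ({c | c ∈ ASet p K ε ∧ (condC K c : ℝ) ≤ 2 * X}.ncard : ℝ) ≤
      C * {c | c ∈ ASet p K ε ∧ (condC K c : ℝ) ≤ X}.ncard) ∧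
  (ASet p K ε).Infinite ∧
  ∀ η : ℝ, 0 < η → ∀ᶠ X : ℝ in Filter.atTop,
    ∑' c : {c | c ∈ ASet p K ε ∧ c ∈ Bd}, Real.exp (-(condC K c.1 : ℝ) / X) ≤
    (θ + η) * ∑' c : ASet p K ε, Real.exp (-(condC K c.1 : ℝ) / X)

open Classical in
/-- **V_HYP** (interface with the analytic part; compare `PP.HYP`). For all the data, all local classes `aτ`
and all `E` with the independence `hN` modulo norms (see `V_SM`), the systems `sysB` with `V = Spl M₂ S` satisfy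
the analytic hypotheses, with a common function `g`, and the family is not too small. `M₂ ≠ K₁` is used for
the primes which are not visible. -/
def V_HYP : Prop :=
  ∀ (p : ℕ) [Fact p.Prime] (K M K₁ M₁ J M₂ : Type) [Field K] [NumberField K] [Field M]
    [NumberField M] [Field K₁] [NumberField K₁] [IsTotallyComplex K₁] [Field M₁] [NumberField M₁]
    [IsTotallyComplex M₁] [Field J] [NumberField J] [Field M₂] [NumberField M₂] [Algebra K M]
    [Algebra K K₁] [Algebra K M₁] [Algebra M M₁] [Algebra K₁ M₁] [Algebra K J] [Algebra K M₂]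
    [Algebra M M₂] [Algebra K₁ M₂] [Algebra M₁ M₂] [Algebra J M₂] (ε : K₁) (δ : M ≃ₐ[K] M)
    (P : (ZMod p)[X]) [Fact (Irreducible P)] [Fintype (AdjoinRoot P)] (a₀ : M₂ˣ),
    SitB p K M K₁ M₁ J M₂ ε δ P a₀ → NTV p M₁ ε δ P → 1 < finrank K₁ M₂ →
  ∀ (B : Base p K M K₁ M₁ ε δ P) (D : BaseB B a₀),
  ∃ (g : ℝ → ℝ) (K₀ : ℝ), Slow g K₀ ∧
  ∀ (n : ℕ) (E : TauF n B) (aτ : K₁ˣ), OmType p K ε (aτ : K₁) →
    (∀ c : Fin n → AdjoinRoot P, (∀ i, ∑ j, c j * E.h j (B.u i) = 0) →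
      (∀ x : M₂ˣ, ∑ j, c j * E.h j (nrm M M₂ x) = 0) → c = 0) →
  ∃ (ψ : AddChar (AdjoinRoot P) ℂ) (ψ₁ : AddChar (ZMod p) ℂ) (K' : ℕ),
    (sysB B E (Spl M₂ B.S) D.s0 aτ).Hyp ψ ψ₁ g K' ∧
  ∃ c X₁ : ℝ, 0 < c ∧ ∀ X : ℝ, X₁ ≤ X → ∃ Q : Finset B.LP, c * (X * g X) ≤
    ∑ b ∈ Q.powerset with (sysB B E (Spl M₂ B.S) D.s0 aτ).Fam b,
      Real.exp (-((sysB B E (Spl M₂ B.S) D.s0 aτ).nm b / X))

open Classical in
/-- **V_HYP0** (the same without the primes which are not visible; `M₂ = K₁` is allowed). -/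
def V_HYP0 : Prop :=
  ∀ (p : ℕ) [Fact p.Prime] (K M K₁ M₁ J M₂ : Type) [Field K] [NumberField K] [Field M]
    [NumberField M] [Field K₁] [NumberField K₁] [IsTotallyComplex K₁] [Field M₁] [NumberField M₁]
    [IsTotallyComplex M₁] [Field J] [NumberField J] [Field M₂] [NumberField M₂] [Algebra K M]
    [Algebra K K₁] [Algebra K M₁] [Algebra M M₁] [Algebra K₁ M₁] [Algebra K J] [Algebra K M₂]
    [Algebra M M₂] [Algebra K₁ M₂] [Algebra M₁ M₂] [Algebra J M₂] (ε : K₁) (δ : M ≃ₐ[K] M)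
    (P : (ZMod p)[X]) [Fact (Irreducible P)] [Fintype (AdjoinRoot P)] (a₀ : M₂ˣ),
    SitB p K M K₁ M₁ J M₂ ε δ P a₀ → NTV p M₁ ε δ P →
  ∀ (B : Base p K M K₁ M₁ ε δ P) (D : BaseB B a₀),
  ∃ (g : ℝ → ℝ) (K₀ : ℝ), Slow g K₀ ∧
  ∀ (n : ℕ) (E : TauF n B) (aτ : K₁ˣ), OmType p K ε (aτ : K₁) →
    (∀ c : Fin n → AdjoinRoot P, (∀ i, ∑ j, c j * E.h j (B.u i) = 0) →
      (∀ x : M₂ˣ, ∑ j, c j * E.h j (nrm M M₂ x) = 0) → c = 0) →
  ∃ (ψ : AddChar (AdjoinRoot P) ℂ) (K' : ℕ), Hyp₀ (sysB B E (Spl M₂ B.S) D.s0 aτ) ψ g K' ∧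
  ∃ c X₁ : ℝ, 0 < c ∧ ∀ X : ℝ, X₁ ≤ X → ∃ Q : Finset B.LP, c * (X * g X) ≤
    ∑ b ∈ Q.powerset with (sysB B E (Spl M₂ B.S) D.s0 aτ).Fam b,
      Real.exp (-((sysB B E (Spl M₂ B.S) D.s0 aτ).nm b / X))

/-- **MOMB** (the moment theorem, class form, for the base characters `χ₀ ψ₀`, `χ₀ ≠ 1`; compare `PP.MOM`). `K` is
totally complex, `T` is place closed with `[K : ℚ]/2` elements, `χ₀` is not conjugate to `ω` (`NTV`), and
`M₂ = M₁ J ≠ K₁`. The Abel means of the classes `c` (type `ω`, local `p`-th powers above `p`, `≠ 1`) for which the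
twisted Selmer group of `a₀ a`, `a` of the class `c`, is not trivial are at most `Q/(p (Q - 1)) + o(1)` times those
of all these classes, `Q = p^f`, `f = deg P`. -/
def MOMB : Prop :=
  ∀ (p : ℕ) [Fact p.Prime] (L : IwasawaLog p ℂ_[p]) (K M K₁ M₁ J M₂ : Type) [Field K]
    [NumberField K] [IsTotallyComplex K] [Field M] [NumberField M] [Field K₁] [NumberField K₁]
    [Field M₁] [NumberField M₁] [Field J] [NumberField J] [Field M₂] [NumberField M₂] [Algebra K M]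
    [Algebra K K₁] [Algebra K M₁] [Algebra M M₁] [Algebra K₁ M₁] [Algebra K J] [Algebra K M₂]
    [Algebra M M₂] [Algebra K₁ M₂] [Algebra M₁ M₂] [Algebra J M₂] (ε : K₁) (δ : M ≃ₐ[K] M)
    (P : (ZMod p)[X]) (a₀ : M₂ˣ), SitBs p K M K₁ M₁ J M₂ ε δ P a₀ → NTV p M₁ ε δ P →
    1 < finrank K₁ M₂ →
  ∀ (m : ℕ) (ζ : ℂ_[p]) (Φ : ℤ_[p][X]), PhiData p m ζ Φ P → finrank K M = m → TorOK P δ →
  ∀ T : Set (K →+* ℂ_[p]), PlaceClosed T → finrank ℚ K = 2 * T.ncard →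
  MomC p K ε (BdB L T P δ a₀)
    ((p : ℝ) ^ P.natDegree / (p * ((p : ℝ) ^ P.natDegree - 1)))

/-- **MOMB1** (the moment theorem, class form, for the base characters `ψ₀` of `p`-power order, `χ₀ = 1`; compare
`PPO.O_MOM`). `K` is a number field without primitive `p`-th roots of unity, `K₁ = K(ε)`, `T` a place closed
set of embeddings with `|T| ≥ rank(𝓞_Kˣ) + 1`, and `ψ₀` is of order at most `p²` (`[J : K] ≤ p`): the constant is
`p^(rank + 1)/(p^|T| (p - 1))`. -/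
def MOMB1 : Prop :=
  ∀ (p : ℕ) [Fact p.Prime] (L : IwasawaLog p ℂ_[p]) (K K₁ J M₂ : Type) [Field K]
    [NumberField K] [Field K₁] [NumberField K₁] [Field J] [NumberField J] [Field M₂]
    [NumberField M₂] [Algebra K K₁] [Algebra K J] [Algebra K M₂] [Algebra K₁ M₂] [Algebra J M₂]
    (ε : K₁) (a₀ : M₂ˣ),
    SitBs p K K K₁ K₁ J M₂ ε (1 : K ≃ₐ[K] K) (X - 1) a₀ → (¬ ∃ ξ : K, IsPrimitiveRoot ξ p) →
    finrank K J ≤ p →
  ∀ T : Set (K →+* ℂ_[p]), PlaceClosed T → Units.rank K + 1 ≤ T.ncard →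
  MomC p K ε (BdB L T (X - 1 : (ZMod p)[X]) (1 : K ≃ₐ[K] K) a₀)
    ((p : ℝ) ^ (Units.rank K + 1) / (p ^ T.ncard * (p - 1)))

end Pool.Agent.Helper11.PB
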