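import Pool.Agent.Helper11.PB.MOMB
import Pool.Agent.Helper76.PB.Asm
import Pool.Agent.Helper17.PB.HYP
import Pool.Agent.Helper94.PB.VEXB
import Pool.Agent.Helper94.PB.VEXT

/-!
# Project B (MP_fc6b1e_nt): the moment theorems in class form, without hypotheses
-/

set_option autoImplicit false

namespace Pool.Agent.Helper11.PB

theorem a_hyp : V_HYP :=
  Pool.Agent.Helper17.PB.v_hyp Pool.Agent.Helper76.PB.a_smn Pool.Agent.Helper76.PB.a_kum

theorem a_hyp0 : V_HYP0 :=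
  Pool.Agent.Helper17.PB.v_hyp0 Pool.Agent.Helper76.PB.a_smn Pool.Agent.Helper76.PB.a_kum

theorem a_momb : MOMB :=
  momb a_hyp Pool.Agent.Helper94.PB.v_exb Pool.Agent.Helper94.PB.v_ext
    Pool.Agent.Helper76.PB.a_aln'

theorem a_momb1A : MOMB1A :=
  momb1A a_hyp a_hyp0 Pool.Agent.Helper94.PB.v_exb Pool.Agent.Helper76.PB.a_ext1

theorem a_momb1 : MOMB1 :=
  momb1 a_hyp a_hyp0 Pool.Agent.Helper94.PB.v_exb Pool.Agent.Helper76.PB.a_ext1

end Pool.Agent.Helper11.PB
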