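import Pool.Agent.Helper11.PB.Goals
import Pool.Agent.Helper11.PP.MOM
import Pool.Agent.Helper11.PP0.SYS
import Pool.Agent.Helper17.PP.AsmC
import Pool.Agent.Helper63.PP.DNLS
import Pool.Agent.Helper15.PP.DTAU
import Pool.Agent.Helper85.PP.DCND
import Pool.Agent.Helper44.PP.DABS
import Pool.Agent.Helper74.PP.PLFI
import Pool.Agent.Helper40.RD.TRF

/-!
# Project B (MP_fc6b1e_nt): from the labels to the classes, general form
-/

set_option autoImplicit false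

namespace Pool.Agent.Helper11.PB

open NumberField Polynomial Module IsDedekindDomain
open Pool.Agent.Helper51.RP Pool.Agent.Helper42.RD Pool.Agent.Helper42.PP Pool.Agent.Helper42.PP1
open Pool.Agent.Helper51.SigLeo Pool.Agent.Helper11.LE Pool.Agent.Helper11.PP
open Pool.Agent.Helper17.PP (Sys)
open Pool.Agent.Helper17.PP0 (Hyp₀)
open Pool.Agent.Helper42.PB
open Pool.Agent.Helper79.PP (clp_eq clp_eq_one nice_val)
open Pool.Agent.Helper63.PP (sum_le bound)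

/-- The three properties of a system which are used for the classes. -/
def Ana {p : ℕ} {B B₀ k U Λ C : Type} [Field k] [Algebra (ZMod p) k] [AddCommGroup U] [Module k U]
    [AddCommGroup Λ] [Module k Λ] [AddCommGroup C] (S : Sys p B B₀ k U Λ C) (g : ℝ → ℝ)
    (θ Kc c X₁ : ℝ) : Prop :=
  (∀ X : ℝ, 0 < X → (Summable fun b : {b : Finset B // S.Fam b} ↦
      Real.exp (-(S.nm b.1 : ℝ) / X)) ∧
    ∑' b : {b : Finset B // S.Fam b}, Real.exp (-(S.nm b.1 : ℝ) / X) ≤ Kc * (X * g X)) ∧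
  (∀ X : ℝ, 0 < X → X₁ ≤ X → c * (X * g X) ≤
    ∑' b : {b : Finset B // S.Fam b}, Real.exp (-(S.nm b.1 : ℝ) / X)) ∧
  ∀ η : ℝ, 0 < η → ∃ X₀ : ℝ, ∀ X : ℝ, X₀ ≤ X →
    ∑' b : {b : {b : Finset B // S.Fam b} | S.Bad b.1}, Real.exp (-(S.nm b.1.1 : ℝ) / X) ≤
      θ * ∑' b : {b : Finset B // S.Fam b}, Real.exp (-(S.nm b.1 : ℝ) / X) + η * (X * g X)

open Classical in
/-- From finite to infinite sums, general `|U|/|Λ|`. -/
theorem ana_of_hyp {p : ℕ} [Fact p.Prime] {B B₀ k U Λ C : Type} [Field k] [Fintype k]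
    [Algebra (ZMod p) k] [AddCommGroup U] [Module k U] [Fintype U] [AddCommGroup Λ] [Module k Λ]
    [Fintype Λ] [AddCommGroup C] [Finite C] {S : Sys p B B₀ k U Λ C} {ψ : AddChar k ℂ}
    {ψ₁ : AddChar (ZMod p) ℂ} {g : ℝ → ℝ} {K : ℕ} (hS : S.Hyp ψ ψ₁ g K) {c X₁ : ℝ}
    (hc : ∀ X : ℝ, X₁ ≤ X → ∃ P : Finset B, c * (X * g X) ≤
      ∑ b ∈ P.powerset with S.Fam b, Real.exp (-(S.nm b / X))) {θ : ℝ}
    (hθ : ((Fintype.card U : ℝ) / Fintype.card Λ) *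
      (Fintype.card k / (p * (Fintype.card k - 1))) ≤ θ) : Ana S g θ K c X₁ := by
  have hexp : ∀ (X : ℝ) (b : Finset B), 0 ≤ Real.exp (-(S.nm b : ℝ) / X) := fun X b ↦
    (Real.exp_pos _).le
  have hfin : ∀ X : ℝ, 0 < X → ∀ s : Finset {b : Finset B // S.Fam b},
      ∑ b ∈ s, Real.exp (-(S.nm b.1 : ℝ) / X) ≤ K * (X * g X) := by
    intro X hX s
    refine (sum_le (fun b : {b : Finset B // S.Fam b} ↦ b.1) Subtype.val_injective (fun _ ↦ True)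
      (fun _ ↦ trivial) (fun b ↦ Real.exp (-(S.nm b : ℝ) / X)) (hexp X) s).trans ?_
    rw [Finset.filter_true]
    exact bound S hS hX _
  have hsum : ∀ X : ℝ, 0 < X → Summable fun b : {b : Finset B // S.Fam b} ↦
      Real.exp (-(S.nm b.1 : ℝ) / X) := fun X hX ↦
    summable_of_sum_le (fun b ↦ hexp X b.1) (hfin X hX)
  -- finite sums over the family are at most the infinite sum
  have hle : ∀ X : ℝ, 0 < X → ∀ P : Finset B,
      ∑ b ∈ P.powerset with S.Fam b, Real.exp (-(S.nm b : ℝ) / X) ≤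
        ∑' b : {b : Finset B // S.Fam b}, Real.exp (-(S.nm b.1 : ℝ) / X) := by
    intro X hX P
    have h2 : ∑ b ∈ P.powerset with S.Fam b, Real.exp (-(S.nm b : ℝ) / X) =
        ∑ b ∈ (P.powerset.subtype S.Fam), Real.exp (-(S.nm b.1 : ℝ) / X) := by
      rw [← Finset.sum_subtype_eq_sum_filter]
    rw [h2]
    exact (hsum X hX).sum_le_tsum _ fun b _ ↦ hexp X b.1
  refine ⟨fun X hX ↦ ⟨hsum X hX, (hsum X hX).tsum_le_of_sum_le (hfin X hX)⟩, ?_, ?_⟩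
  · intro X hX hX1
    obtain ⟨P, hP⟩ := hc X hX1
    refine hP.trans (le_trans (le_of_eq ?_) (hle X hX P))
    exact Finset.sum_congr rfl fun b _ ↦ by rw [neg_div]
  · intro η hη
    obtain ⟨X₀, h0⟩ := Pool.Agent.Helper17.PP.mt p B B₀ k U Λ C S ψ ψ₁ g K hS η hη
    refine ⟨max X₀ 1, fun X hX ↦ ?_⟩
    have hX0 : X₀ ≤ X := (le_max_left _ _).trans hX
    have hXp : 0 < X := lt_of_lt_of_le one_pos ((le_max_right _ _).trans hX)
    have hk1 : (1 : ℝ) < Fintype.card k := by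
      exact_mod_cast Fintype.one_lt_card
    have hp0 : (0 : ℝ) ≤ p := Nat.cast_nonneg _
    have hθ0 : 0 ≤ ((Fintype.card U : ℝ) / Fintype.card Λ) *
        ((Fintype.card k : ℝ) / (p * (Fintype.card k - 1))) :=
      mul_nonneg (by positivity) (div_nonneg (by linarith) (mul_nonneg hp0 (by linarith)))
    refine Real.tsum_le_of_sum_le (fun b ↦ hexp X b.1.1) fun s ↦ ?_
    refine (sum_le (fun b : {b : {b : Finset B // S.Fam b} | S.Bad b.1} ↦ b.1.1)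
      (Subtype.val_injective.comp Subtype.val_injective) (fun b ↦ S.Fam b ∧ S.Bad b)
      (fun b ↦ ⟨b.1.2, b.2⟩) (fun b ↦ Real.exp (-(S.nm b : ℝ) / X)) (hexp X) s).trans ?_
    have h2 := h0 X hX0 (s.biUnion fun b ↦ b.1.1)
    have h3 := hle X hXp (s.biUnion fun b ↦ b.1.1)
    have e1 : ∀ b : Finset B, Real.exp (-((S.nm b : ℝ) / X)) = Real.exp (-(S.nm b : ℝ) / X) :=
      fun b ↦ by rw [neg_div]
    simp only [e1] at h2
    refine le_trans (le_of_eq ?_) (h2.trans ?_)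
    · congr!
    have h5 : 0 ≤ ∑' b : {b : Finset B // S.Fam b}, Real.exp (-(S.nm b.1 : ℝ) / X) :=
      tsum_nonneg fun b ↦ hexp X b.1
    have h4 := mul_le_mul_of_nonneg_left h3 hθ0
    have h6 := mul_le_mul_of_nonneg_right hθ h5
    linarith

open Classical in
/-- The same for `Hyp₀`. -/
theorem ana_of_hyp0 {p : ℕ} [Fact p.Prime] {B B₀ k U Λ C : Type} [Field k] [Fintype k]
    [Algebra (ZMod p) k] [AddCommGroup U] [Module k U] [Fintype U] [AddCommGroup Λ] [Module k Λ]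
    [Fintype Λ] [AddCommGroup C] [Finite C] {S : Sys p B B₀ k U Λ C} {ψ : AddChar k ℂ}
    {g : ℝ → ℝ} {K : ℕ} (hS : Hyp₀ S ψ g K) {c X₁ : ℝ}
    (hc : ∀ X : ℝ, X₁ ≤ X → ∃ P : Finset B, c * (X * g X) ≤
      ∑ b ∈ P.powerset with S.Fam b, Real.exp (-(S.nm b / X))) {θ : ℝ}
    (hθ : ((Fintype.card U : ℝ) / Fintype.card Λ) *
      (Fintype.card k / (Fintype.card k - 1)) ≤ θ) : Ana S g θ K c X₁ := by
  obtain ⟨h1, h2, h3⟩ := Pool.Agent.Helper11.PP0.sys0 p B B₀ k U Λ C S ψ g K hS c X₁ hc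
  refine ⟨h1, h2, fun η hη => ?_⟩
  obtain ⟨X₀, h4⟩ := h3 η hη
  refine ⟨X₀, fun X hX => (h4 X hX).trans ?_⟩
  refine add_le_add (mul_le_mul_of_nonneg_right hθ ?_) le_rfl
  exact tsum_nonneg fun b => (Real.exp_pos _).le

theorem momW (hLAB : V_LAB) (hSEL : V_SEL) {p : ℕ} [hpF : Fact p.Prime] (L : IwasawaLog p ℂ_[p])
    {K M K₁ M₁ J M₂ : Type} [Field K] [NumberField K] [Field M]
    [NumberField M] [Field K₁] [NumberField K₁] [Field M₁] [NumberField M₁] [Field J]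
    [NumberField J] [Field M₂] [NumberField M₂] [Algebra K M] [Algebra K K₁] [Algebra K M₁]
    [Algebra M M₁] [Algebra K₁ M₁] [Algebra K J] [Algebra K M₂] [Algebra M M₂] [Algebra K₁ M₂]
    [Algebra M₁ M₂] [Algebra J M₂] {ε : K₁} {δ : M ≃ₐ[K] M} {P : (ZMod p)[X]}
    [Fact (Irreducible P)] {a₀ : M₂ˣ} (hs : SitB p K M K₁ M₁ J M₂ ε δ P a₀)
    (T : Set (K →+* ℂ_[p])) (B : Base p K M K₁ M₁ ε δ P) (D : BaseB B a₀) (g : ℝ → ℝ) (K₀ : ℝ)
    (hslow : Slow g K₀) (θ : ℝ) (hθ : 0 ≤ θ) (n : ℕ)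
    (hE : ∀ aτ : K₁ˣ, OmType p K ε (aτ : K₁) → NiceU p aτ →
      ∃ (E : TauB n B a₀ L T aτ) (Kc c X₁ : ℝ), 0 < c ∧
        Ana (sysB B E.toTauF (Spl M₂ B.S) D.s0 aτ) g θ Kc c X₁) :
    MomC p K ε (BdB L T P δ a₀) θ := by
  classical
  have hp : p.Prime := hpF.out
  have hprim := hs.sit.prim
  have := hs.sit.gK
  have := hs.sit.st2
  have := hs.sit.gMK
  have hG2 : IsGalois K₁ M₁ := IsGalois.tower_top_of_isGalois K K₁ M₁
  have hcop := hs.sit.c2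
  have hTRF : E_TRF := Pool.Agent.Helper40.RD.e_trf
  have hTAU : D_TAU := Pool.Agent.Helper15.PP.d_tau Pool.Agent.Helper74.PP.p_lfi
  obtain ⟨F₀, hF₀, huq⟩ := hTAU p K₁ (up K₁ B.S) (up_finite B.S)
    {a : K₁ˣ | OmType p K ε (a : K₁) ∧ NiceU p a}
  have hF₀1 : ∀ τ : F₀, OmType p K ε ((τ : K₁ˣ) : K₁) := fun τ => (hF₀ τ τ.2).1
  have hE' : ∀ τ : F₀, ∃ (E : TauB n B a₀ L T (τ : K₁ˣ)) (Kc c X₁ : ℝ), 0 < c ∧
      Ana (sysB B E.toTauF (Spl M₂ B.S) D.s0 τ) g θ Kc c X₁ := fun τ =>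
    hE τ (hF₀1 τ) (hF₀ τ τ.2).2
  choose E Kτ c X₁ hc hS using hE'
  have hL : ∀ τ : F₀, _ := fun τ => hLAB p ℂ_[p] L K M K₁ M₁ ε δ P hs.sit B τ n (E τ).toTauF
    (Spl M₂ B.S) D.s0 (hF₀1 τ)
  obtain ⟨Kc, c', X', hKc, hc', hcc, hX'⟩ := common (fun τ : F₀ => max K₀ (Kτ τ)) c X₁ hc
  obtain ⟨τ₀⟩ : Nonempty F₀ := by
    have h1 : OmType p K ε ((1 : K₁ˣ) : K₁) := by
      intro σ
      have hε : (σ ε) ^ p = 1 := by rw [← map_pow, hprim.pow_eq_one, map_one]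
      have : NeZero p := ⟨hp.ne_zero⟩
      obtain ⟨i, -, hi⟩ := hprim.eq_pow_of_pow_eq_one hε
      exact ⟨i, 1, hi.symm, by simp⟩
    obtain ⟨τ, ⟨h2, -⟩, -⟩ := huq 1 ⟨h1, 1, 1, by simp, by simp⟩
    exact ⟨⟨τ, h2⟩⟩
  have hKc0 : Slow g Kc := slow_mono hslow ((le_max_left _ _).trans (hKc τ₀))
  have hval : ∀ W : HeightOneSpectrum (𝓞 K₁), ∃ W' : HeightOneSpectrum (𝓞 M₁), Above W' W ∧
      ∀ x : K₁, ((p : ℤ) ∣ ordv W' (algebraMap K₁ M₁ x) ↔ (p : ℤ) ∣ ordv W x) := by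
    intro W
    obtain ⟨W', hW'⟩ := exists_above' (E := M₁) W
    exact ⟨W', hW', (hTRF p K₁ M₁ hcop W' W hW').1⟩
  exact core B Pool.Agent.Helper63.PP.d_nls Pool.Agent.Helper85.PP.d_cnd
    Pool.Agent.Helper44.PP.d_abs F₀ ⟨((τ₀ : K₁ˣ) : K₁), (τ₀ : K₁ˣ).ne_zero, hF₀1 τ₀⟩
    (fun c hc => hF₀ c hc) (fun a h1 h2 => huq a ⟨h1, h2⟩)
    (fun τ b => (sysB B (E τ).toTauF (Spl M₂ B.S) D.s0 τ).Fam b)
    (fun τ b => (sysB B (E τ).toTauF (Spl M₂ B.S) D.s0 τ).Bad b)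
    (fun a ha => ((hL τ₀).1 a ha).1)
    (fun a ha v hv W hW => by
      obtain ⟨W', hW', hx⟩ := hval W
      rw [← hx]
      exact ((hL τ₀).1 a ha).2.1 v hv W' (above_trans hW hW'))
    (fun a ha v hv hv' W hW => by
      obtain ⟨W', hW', hx⟩ := hval W
      rw [← hx]
      exact ((hL τ₀).1 a ha).2.2.1 v hv hv' W' (above_trans hW hW'))
    (fun τ a ha hl => ((hL τ).1 a ha).2.2.2 hl)
    (fun τ b hb => (hL τ).2.1 b hb)
    (fun τ a a' ha ha' hl hl' hlab => (hL τ).2.2.1 a a' ha ha' hl hl' hlab)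
    (BdB L T P δ a₀)
    (fun τ a hcB ha hl => by
      obtain ⟨y, a₁, haa, hsel, hy⟩ := hcB
      obtain ⟨z, hz⟩ := clp_eq.1 haa.symm
      have h1 : OmType p K ε (a₁ : K₁) := by rw [hz]; exact om_mul_pow ha z
      have h2 : LocS p (up K₁ B.S) (a₁ / (τ : K₁ˣ)) := by
        have h3 := (Pool.Agent.Helper15.PP.gZ p _).mul_mem (Pool.Agent.Helper15.PP.mem_gZ.2 hl)
          (Pool.Agent.Helper15.PP.mem_gZ.2 (locS_pow (p := p) (Z := up K₁ B.S) z))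
        have h4 : a₁ / (τ : K₁ˣ) = a / τ * z ^ p := by rw [hz, mul_div_right_comm]
        rw [h4]
        exact Pool.Agent.Helper15.PP.mem_gZ.1 h3
      have h5 := hSEL p ℂ_[p] K M K₁ M₁ J M₂ ε δ P a₀ hs L T B D τ n (E τ) (hF₀1 τ) a₁ h1 h2
        ⟨y, hsel, hy⟩
      rw [hz, lab_mul_pow] at h5
      exact h5)
    g Kc c' X' θ hc' hθ hKc0
    (fun τ X hX => ⟨((hS τ).1 X hX).1, ((hS τ).1 X hX).2.trans (by
      refine mul_le_mul_of_nonneg_right ((le_max_right _ _).trans (hKc τ)) ?_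
      exact mul_nonneg hX.le (zero_le_one.trans (hslow.one X)))⟩)
    (fun τ X hX hX1 => by
      refine le_trans ?_ ((hS τ).2.1 X hX ((hX' τ).trans hX1))
      refine mul_le_mul_of_nonneg_right (hcc τ) ?_
      exact mul_nonneg hX.le (zero_le_one.trans (hslow.one X)))
    (fun η hη => by
      have h1 : ∀ τ : F₀, _ := fun τ => (hS τ).2.2 η hη
      choose X₀ hX₀ using h1
      refine ⟨∑ τ, |X₀ τ|, fun τ X hX => ?_⟩
      exact hX₀ τ X (((le_abs_self _).trans (Finset.single_le_sum (f := fun τ => |X₀ τ|)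
        (fun i _ => abs_nonneg _) (Finset.mem_univ τ))).trans hX))

end Pool.Agent.Helper11.PB
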