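import Pool.Agent.Helper11.PB.Goals2
import Pool.Agent.Helper11.PB.Gen
import Pool.Agent.Helper76.PB.GoalsV
import Pool.Agent.Helper42.PB.LAB
import Pool.Agent.Helper42.PB.SEL
import Pool.Agent.Helper94.PP1.RNK
import Pool.Agent.Helper64.PP.PEXT
import Pool.Agent.Helper88.LE.SUN
import Pool.Agent.Helper90.LE.CYC
import Pool.Agent.Helper76.PP.NTV1
import Pool.Agent.Helper77.PPO.HYPN

/-!
# Project B (MP_fc6b1e_nt): the moment theorems in class form, `MOMB` and `MOMB1`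
-/

set_option autoImplicit false

namespace Pool.Agent.Helper11.PB

open NumberField Polynomial Module IsDedekindDomain
open Pool.Agent.Helper51.RP Pool.Agent.Helper42.RD Pool.Agent.Helper42.PP Pool.Agent.Helper42.PP1
open Pool.Agent.Helper51.SigLeo Pool.Agent.Helper11.LE Pool.Agent.Helper11.PP
open Pool.Agent.Helper17.PP (Sys)
open Pool.Agent.Helper17.PP0 (Hyp₀)
open Pool.Agent.Helper42.PB Pool.Agent.Helper76.PB
open Pool.Agent.Helper79.PP (nice_val)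
open Pool.Agent.Helper64.PP (rank_le)
open Pool.Agent.Helper94.PP1 (rank1')

/-- `K ↦` a totally complex overfield. -/
theorem tc_up (K F : Type) [Field K] [NumberField K] [Field F] [NumberField F] [Algebra K F]
    [IsTotallyComplex K] : IsTotallyComplex F :=
  isTotallyComplex_of_algebra K F

theorem momb (hHYP : V_HYP) (hEXB : V_EXB) (hEXT : V_EXT) (hALN : V_ALN') : MOMB := by
  classical
  intro p hpF L K M K₁ M₁ J M₂ _ _ _ _ _ _ _ _ _ _ _ _ _ _ _ _ _ _ _ _ _ _ _ _ ε δ P a₀ hs hnt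
    h1 m ζ Φ hPhi hfr htor T hTc hd
  have hp : p.Prime := hpF.out
  have hirr : Fact (Irreducible P) := ⟨hs.sit.irr⟩
  have hP0 : P ≠ 0 := hs.sit.irr.ne_zero
  have hfinA : Module.Finite (ZMod p) (AdjoinRoot P) := (AdjoinRoot.powerBasis hP0).finite
  have hfA : Finite (AdjoinRoot P) := Module.finite_of_finite (ZMod p)
  let instA : Fintype (AdjoinRoot P) := Fintype.ofFinite _
  have hcard : Fintype.card (AdjoinRoot P) = p ^ P.natDegree := by
    rw [Module.card_eq_pow_finrank (K := ZMod p) (V := AdjoinRoot P), ZMod.card,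
      (AdjoinRoot.powerBasis hP0).finrank, AdjoinRoot.powerBasis_dim]
  have hne : Nonempty (AlgebraicClosure ℚ →+* ℂ_[p]) :=
    Pool.Agent.Helper35.RD.nonempty_hom ℚ ℂ_[p]
  have hcK : IsTotallyComplex K₁ := tc_up K K₁
  have hcM : IsTotallyComplex M₁ := tc_up K M₁
  have := hs.sit.gM
  have := hs.sit.st1
  have := hs.sit.st2
  have hord : orderOf δ = m := hs.sit.ord.trans hfr
  have hPX : AdjoinRoot.root P ≠ 1 := by
    intro h
    have h2 := hPhi.cop 1 one_pos hPhi.one_lt (one_dvd _)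
    have h3 : P ∣ X ^ 1 - 1 := by
      rw [← AdjoinRoot.mk_eq_zero, pow_one, map_sub, AdjoinRoot.mk_X, map_one, h, sub_self]
    exact hs.sit.irr.not_isUnit (h2.isUnit_of_dvd' dvd_rfl h3)
  obtain ⟨B, ⟨D⟩⟩ := hEXB p K M K₁ M₁ J M₂ ε δ P a₀ hs
  obtain ⟨g, K₀, hslow, hH⟩ := hHYP p K M K₁ M₁ J M₂ ε δ P a₀ hs hnt h1 B D
  obtain ⟨hSf, hst, hSp, -, -, -, -⟩ := Pool.Agent.Helper16.PP.p_upr p K M B.S
  obtain ⟨s₀, hs₀⟩ := Pool.Agent.Helper90.RP.Dual.dvd_ncard (K := K) m hfr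
    {w ∈ up M B.S | FreeP K w} (hSf.subset fun w hw => hw.1)
    (fun w hw v hv => ⟨hst w hw.1 v hv, free_of_conj hv hw.2⟩)
    (fun w hw => hw.2)
  have hr : B.r ≤ T.ncard + s₀ :=
    rank_le Pool.Agent.Helper30.PP.p_fun hPhi hord hfr hd htor B hSf hst hs₀
  have lob : S_LOB := Pool.Agent.Helper32.RP.s_lob Pool.Agent.Helper90.RP.s_sub
    Pool.Agent.Helper59.RP.s_bin (Pool.Agent.Helper39.RP.s_sig Pool.Agent.Helper95.RP.s_lat)
    Pool.Agent.Helper99.RP.s_prm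
  have hp1 : (1 : ℝ) < p := by exact_mod_cast hp.one_lt
  have hQ1 : (1 : ℝ) < (p : ℝ) ^ P.natDegree := by
    have h := one_lt_pow₀ hp1 hs.sit.irr.natDegree_pos.ne'
    exact h
  have hθ : (0 : ℝ) ≤ (p : ℝ) ^ P.natDegree / (p * ((p : ℝ) ^ P.natDegree - 1)) := by
    have h2 : (0 : ℝ) ≤ (p : ℝ) ^ P.natDegree - 1 := by linarith
    positivity
  refine momW Pool.Agent.Helper42.PB.v_lab Pool.Agent.Helper42.PB.v_sel L hs.toSitB T B D g K₀ hslow _ hθ
    (T.ncard + s₀) ?_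
  intro aτ haτ hnice
  obtain ⟨E⟩ := hEXT p ℂ_[p] K M K₁ M₁ J M₂ ε δ P a₀ hs L T B D aτ haτ (fun Q hQ =>
    nice_val hnice Q ((Q.valuation_lt_one_iff_mem (K := K₁) (p : 𝓞 K₁)).1 (by simpa using hQ)))
    (T.ncard + s₀) (fun 𝔪₀ v hv =>
      lob p ℂ_[p] hne L K M m s₀ δ ζ Φ P hPhi hord hfr T hTc (up M B.S) 𝔪₀ v hv hs₀)
  obtain ⟨ψ, ψ₁, K', hHyp, c, X₁, hc, hlow⟩ := hH (T.ncard + s₀) E.toTauF aτ haτ
    (hALN p K M K₁ M₁ J M₂ ε δ P a₀ hs hPX B D _ E.toTauF)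
  refine ⟨E, K', c, X₁, hc, ana_of_hyp hHyp hlow ?_⟩
  have h3 : (Fintype.card (Fin B.r → AdjoinRoot P) : ℝ) = ((p : ℝ) ^ P.natDegree) ^ B.r := by
    rw [Fintype.card_fun, hcard, Fintype.card_fin]
    push_cast
    ring
  have h4 : (Fintype.card (Fin (T.ncard + s₀) → AdjoinRoot P) : ℝ) =
      ((p : ℝ) ^ P.natDegree) ^ (T.ncard + s₀) := by
    rw [Fintype.card_fun, hcard, Fintype.card_fin]
    push_cast
    ring
  rw [h3, h4, hcard, Nat.cast_pow]
  have h5 : ((p : ℝ) ^ P.natDegree) ^ B.r / ((p : ℝ) ^ P.natDegree) ^ (T.ncard + s₀) ≤ 1 := by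
    rw [div_le_one (by positivity)]
    exact pow_le_pow_right₀ hQ1.le hr
  calc _ ≤ 1 * ((p : ℝ) ^ P.natDegree / (p * ((p : ℝ) ^ P.natDegree - 1))) :=
        mul_le_mul_of_nonneg_right h5 hθ
    _ = _ := one_mul _

theorem momb1A (hHYP : V_HYP) (hHYP0 : V_HYP0) (hEXB : V_EXB) (hEXT : M_EXT1) : MOMB1A := by
  classical
  intro p hpF L K K₁ J M₂ _ _ _ _ _ _ _ _ _ _ _ _ _ ε a₀ hs hμ T hTc hTn
  have hp : p.Prime := hpF.out
  have hirr : Fact (Irreducible (X - 1 : (ZMod p)[X])) := ⟨hs.sit.irr⟩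
  have hP0 : (X - 1 : (ZMod p)[X]) ≠ 0 := hs.sit.irr.ne_zero
  have hfinA : Module.Finite (ZMod p) (AdjoinRoot (X - 1 : (ZMod p)[X])) :=
    (AdjoinRoot.powerBasis hP0).finite
  have hfA : Finite (AdjoinRoot (X - 1 : (ZMod p)[X])) := Module.finite_of_finite (ZMod p)
  let instA : Fintype (AdjoinRoot (X - 1 : (ZMod p)[X])) := Fintype.ofFinite _
  have hdeg : (X - 1 : (ZMod p)[X]).natDegree = 1 := by
    have h := natDegree_X_sub_C (1 : ZMod p)
    rwa [map_one] at h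
  have hcard : Fintype.card (AdjoinRoot (X - 1 : (ZMod p)[X])) = p := by
    rw [Module.card_eq_pow_finrank (K := ZMod p) (V := AdjoinRoot (X - 1 : (ZMod p)[X])),
      ZMod.card, (AdjoinRoot.powerBasis hP0).finrank, AdjoinRoot.powerBasis_dim, hdeg, pow_one]
  have := hs.sit.gK
  have hC : Cyc p K K₁ ε := ⟨hs.sit.prim, hs.sit.gK, hs.sit.gen⟩
  have h2K := Pool.Agent.Helper90.LE.l_cyc p K K₁ ε hC
  have hcK : IsTotallyComplex K₁ := h2K.2.2.2 (Pool.Agent.Helper77.PPO.p_ne_two p K hμ)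
  have hnt : NTV p K₁ ε (1 : K ≃ₐ[K] K) (X - 1 : (ZMod p)[X]) := by
    refine Pool.Agent.Helper76.PP.ntv_one p K K₁ ε hC.prim hC.gen ?_
    have h2 : 0 < Module.finrank K K₁ := Module.finrank_pos
    rcases Nat.lt_or_ge 1 (Module.finrank K K₁) with h | h
    · exact h
    · exact absurd (h2K.2.2.1.1 (by omega)) hμ
  obtain ⟨B, ⟨D⟩⟩ := hEXB p K K K₁ K₁ J M₂ ε 1 (X - 1) a₀ hs
  have hr : B.r ≤ B.S.card + Units.rank K :=
    rank1' Pool.Agent.Helper88.LE.l_sun hC.prim hC.gen hμ B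
  have hp1 : (1 : ℝ) < p := by exact_mod_cast hp.one_lt
  have hp0 : (0 : ℝ) < p := by linarith
  have hpp : (0 : ℝ) < (p : ℝ) - 1 := by linarith
  have hθ : (0 : ℝ) ≤ (p : ℝ) ^ (Units.rank K + 1) / (p ^ T.ncard * (p - 1)) := by
    positivity
  have hcd : ∀ n : ℕ, (Fintype.card (Fin n → AdjoinRoot (X - 1 : (ZMod p)[X])) : ℝ) =
      (p : ℝ) ^ n := by
    intro n
    rw [Fintype.card_fun, hcard, Fintype.card_fin, Nat.cast_pow]
  obtain ⟨l, hl⟩ := hs.degJ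
  have hval : ∀ aτ : K₁ˣ, NiceU p aτ → ∀ Q : HeightOneSpectrum (𝓞 K₁),
      Q.valuation K₁ (p : K₁) < 1 → (p : ℤ) ∣ ordv Q (aτ : K₁) := fun aτ hnice Q hQ =>
    nice_val hnice Q ((Q.valuation_lt_one_iff_mem (K := K₁) (p : 𝓞 K₁)).1 (by simpa using hQ))
  by_cases hJ : finrank K J = 1
  · obtain ⟨g, K₀, hslow, hH⟩ := hHYP0 p K K K₁ K₁ J M₂ ε 1 (X - 1) a₀ hs hnt B D
    refine momW Pool.Agent.Helper42.PB.v_lab Pool.Agent.Helper42.PB.v_sel L hs.toSitB T B D g K₀ hslow _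
      hθ (B.S.card + T.ncard) ?_
    intro aτ haτ hnice
    obtain ⟨E, hE⟩ := (hEXT p L K K₁ J M₂ ε a₀ hs hμ T B D aτ haτ (hval aτ hnice)).1 hJ
    obtain ⟨ψ, K', hHyp, c, X₁, hc, hlow⟩ := hH _ E.toTauF aτ haτ hE
    refine ⟨E, K', c, X₁, hc, ana_of_hyp0 hHyp hlow ?_⟩
    rw [hcd, hcd, hcard, div_mul_div_comm, div_le_div_iff₀ (by positivity) (by positivity)]
    have h3 : (p : ℝ) ^ B.r ≤ p ^ (B.S.card + Units.rank K) := pow_le_pow_right₀ hp1.le hr
    calc (p : ℝ) ^ B.r * p * (p ^ T.ncard * (p - 1))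
        ≤ p ^ (B.S.card + Units.rank K) * p * (p ^ T.ncard * (p - 1)) := by gcongr
      _ = p ^ (Units.rank K + 1) * (p ^ (B.S.card + T.ncard) * (p - 1)) := by ring
  · have hl0 : l ≠ 0 := by
      rintro rfl
      exact hJ (by rw [hl, pow_zero])
    have hJ' : 1 < finrank K J := by
      have h0 : 0 < finrank K J := finrank_pos
      omega
    have hM₂ : 1 < finrank K₁ M₂ := by
      -- `[M₂ : K]` is divisible by `p`
      by_contra hcon
      have h0 : 0 < finrank K₁ M₂ := finrank_pos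
      have h1 : finrank K₁ M₂ = 1 := by omega
      have := tow_K hs.toSitB
      have := hs.t4
      have h2 : finrank K K₁ * finrank K₁ M₂ = finrank K M₂ := finrank_mul_finrank K K₁ M₂
      have h3 : finrank K J * finrank J M₂ = finrank K M₂ := finrank_mul_finrank K J M₂
      have h4 : p ∣ finrank K K₁ := by
        rw [h1, mul_one] at h2
        rw [h2, ← h3, hl]
        exact (dvd_pow_self p hl0).mul_right _
      have h5 : finrank K K₁ ∣ p - 1 :=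
        Pool.Agent.Helper14.RD.finrank_dvd_pred p K K₁ ε hC.prim hC.gen
      have h6 := Nat.le_of_dvd (by have := hp.one_lt; omega) (h4.trans h5)
      have := hp.one_lt
      omega
    obtain ⟨g, K₀, hslow, hH⟩ := hHYP p K K K₁ K₁ J M₂ ε 1 (X - 1) a₀ hs hnt hM₂ B D
    refine momW Pool.Agent.Helper42.PB.v_lab Pool.Agent.Helper42.PB.v_sel L hs.toSitB T B D g K₀ hslow _
      hθ (B.S.card + T.ncard - 1) ?_
    intro aτ haτ hnice
    obtain ⟨E, hE⟩ := (hEXT p L K K₁ J M₂ ε a₀ hs hμ T B D aτ haτ (hval aτ hnice)).2 hJ'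
    obtain ⟨ψ, ψ₁, K', hHyp, c, X₁, hc, hlow⟩ := hH _ E.toTauF aτ haτ hE
    refine ⟨E, K', c, X₁, hc, ana_of_hyp hHyp hlow ?_⟩
    rw [hcd, hcd, hcard, div_mul_div_comm, div_le_div_iff₀ (by positivity) (by positivity)]
    have h3 : (p : ℝ) ^ B.r ≤ p ^ (B.S.card + Units.rank K) := pow_le_pow_right₀ hp1.le hr
    have h4 : B.S.card + T.ncard = (B.S.card + T.ncard - 1) + 1 := by omega
    calc (p : ℝ) ^ B.r * p * (p ^ T.ncard * (p - 1))
        ≤ p ^ (B.S.card + Units.rank K) * p * (p ^ T.ncard * (p - 1)) := by gcongr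
      _ = p ^ (Units.rank K + 1) * (p ^ (B.S.card + T.ncard) * (p - 1)) := by ring
      _ = p ^ (Units.rank K + 1) * (p ^ (B.S.card + T.ncard - 1) * (p * (p - 1))) := by
        rw [h4, pow_succ, Nat.add_sub_cancel]
        ring

theorem momb1 (hHYP : V_HYP) (hHYP0 : V_HYP0) (hEXB : V_EXB) (hEXT : M_EXT1) : MOMB1 := by
  intro p _ L K K₁ J M₂ _ _ _ _ _ _ _ _ _ _ _ _ _ ε a₀ hs hμ _ T hTc hTn
  exact momb1A hHYP hHYP0 hEXB hEXT p L K K₁ J M₂ ε a₀ hs hμ T hTc hTn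

end Pool.Agent.Helper11.PB
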